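import Mathlib
import Pool.Agent.Ell.Targets

set_option autoImplicit false

/-! Asymptotic Elliott conjecture (MP_f3f922_nt), first function with values in a finite group of
roots of unity, the other ones arbitrary: definitions (project ELR). -/

namespace Pool.Agent.ELR

open Finset
open scoped BigOperators ComplexConjugate
open Pool.Agent.Ell (MB nit dist2)

/-- the number of elements of `s` with the property `P` -/
noncomputable def cnt {ι : Type} (s : Finset ι) (P : ι → Prop) : ℝ :=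
  haveI : DecidablePred P := Classical.decPred P
  ((s.filter P).card : ℝ)

/-! ### Entropy -/

/-- the size of the fibre of `X` through `w` -/
noncomputable def fib {Ω α : Type} [Fintype Ω] (X : Ω → α) (w : Ω) : ℝ :=
  cnt (univ : Finset Ω) (fun v => X v = X w)

/-- the sum of the logarithms of the fibre sizes (`|Ω| (log |Ω| - entropy)`) -/
noncomputable def LL {Ω α : Type} [Fintype Ω] (X : Ω → α) : ℝ := ∑ w, Real.log (fib X w)

/-- the window of length `H` starting at `n` -/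
def win {N m : ℕ} (g : ZMod N → Fin m) (H : ℕ) (n : ZMod N) : Fin H → Fin m :=
  fun i => g (n + ((i : ℕ) : ZMod N))

/-- `N` times the entropy of the window given the residue modulo `Q` -/
noncomputable def UU {N m : ℕ} [NeZero N] (g : ZMod N → Fin m) (H Q : ℕ) : ℝ :=
  LL (fun n : ZMod N => n.val % Q) - LL (fun n : ZMod N => (win g H n, n.val % Q))

/-- the relation `r` fails at `n`, for the shift `p L` -/
def FP {N m : ℕ} (M a L : ℕ) (g : ZMod N → Fin m) (r : Fin m → Fin m → Prop) (p : ℕ)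
    (n : ZMod N) : Prop :=
  n.val ≡ a [MOD M] ∧ ¬ r (g n) (g (n + ((p * L : ℕ) : ZMod N)))

/-- the elements of `S` between `z` (excluded) and `Z` -/
noncomputable def prS (S : Set ℕ) (z Z : ℕ) : Finset ℕ :=
  haveI : DecidablePred (· ∈ S) := Classical.decPred _
  (Ioc z Z).filter (· ∈ S)

/-! ### Cubes -/

/-- `z` lies on one of the `m` spokes: `z ^ m` is a nonnegative real number -/
def Sp (m : ℕ) (z : ℂ) : Prop := ∃ r : ℝ, 0 ≤ r ∧ z ^ m = r

/-- `e(j/m)` -/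
noncomputable def em (m : ℕ) (j : ZMod m) : ℂ :=
  Complex.exp (2 * Real.pi * Complex.I * ((j.val : ℕ) : ℂ) / (m : ℂ))

/-- the parameters of the relations -/
structure Par (K R D : ℕ) (h : Fin (K + 1) → ℕ) (c : Fin K → ℕ) (σ : Fin K → ℤ)
    (l : ℕ → Finset (Fin K) → ℕ) : Prop where
  dpos : 1 ≤ D
  sig : ∀ i, σ i * ((h 0 : ℤ) - h i.succ) = c i * D
  lin : ∀ b ≤ R, ∀ E, (l b E : ℤ) = l b ∅ + ∑ i ∈ E, σ i
  two : ∀ b ≤ R, ∀ E, 2 ≤ l b E
  cop : ∀ b ≤ R, ∀ b' ≤ R, ∀ E E', (b, E) ≠ (b', E') → Nat.Coprime (l b E) (l b' E')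
  big : ∀ b ≤ R, ∀ E, ∀ p : ℕ, p.Prime → p ∣ l b E →
    (∀ j, h j + 1 < p) ∧ R + ∑ i, c i < p ∧ ¬ p ∣ D

/-- the residue class of the relations -/
structure Cls (K R D : ℕ) (h : Fin (K + 1) → ℕ) (c : Fin K → ℕ)
    (l : ℕ → Finset (Fin K) → ℕ) (M a g : ℕ) : Prop where
  mpos : 1 ≤ M
  gpos : 1 ≤ g
  gdvd : g ∣ M
  cls : ∀ u : ℕ, u ≡ a [MOD M] → ∀ b ≤ R, ∀ E : Finset (Fin K),
    u + (b + ∑ i ∈ E, c i) * D ≡ l b E * (1 + h 0) [MOD (l b E) ^ 2]
  fin : ∀ v : ℕ, v ≡ a + R * D [MOD M] → g ∣ v ∧ Nat.Coprime (v / g) M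

/-! ### Dirichlet polynomials -/

/-- the Dirichlet polynomial `∑_{n ∈ s} a(n) n^{-it}` -/
noncomputable def DP (s : Finset ℕ) (a : ℕ → ℂ) (t : ℝ) : ℂ := ∑ n ∈ s, a n * nit (-t) n

/-- the Gaussian quadratic form -/
noncomputable def QF (X : ℕ) (H : ℝ) (g : ℕ → ℂ) : ℝ :=
  ∑ m ∈ Ioc X (4 * X), ∑ n ∈ Ioc X (4 * X), (g m * conj (g n)).re *
    Real.exp (-(((X : ℝ) / H) * Real.log ((m : ℝ) / n)) ^ 2 / 4)

/-- the elements of `B` in `[e^{v/V}, e^{(v+1)/V})` -/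
noncomputable def pv (B : Finset ℕ) (V v : ℕ) : Finset ℕ :=
  B.filter fun p => ⌊(V : ℝ) * Real.log p⌋₊ = v

/-- `e^{v/V}` -/
noncomputable def PV (V v : ℕ) : ℝ := Real.exp ((v : ℝ) / V)

/-- the prime factor polynomial -/
noncomputable def QQ (g : ℕ → ℂ) (B : Finset ℕ) (V v : ℕ) (t : ℝ) : ℂ := DP (pv B V v) g t

/-- the cofactor polynomial -/
noncomputable def RR (g : ℕ → ℂ) (X V v : ℕ) (t : ℝ) : ℂ :=
  DP (Ioc ⌊(X : ℝ) / PV V v⌋₊ ⌊4 * (X : ℝ) / PV V v⌋₊) g t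

/-- the sum of the reciprocals -/
noncomputable def SB (B : Finset ℕ) : ℝ := ∑ p ∈ B, 1 / (p : ℝ)

/-- number of indices `v` for primes up to `b` -/
noncomputable def nv (V b : ℕ) : ℕ := ⌊(V : ℝ) * Real.log b⌋₊ + 1

/-- the sum of the products -/
noncomputable def ZZ (g : ℕ → ℂ) (B : Finset ℕ) (X V b : ℕ) (t : ℝ) : ℂ :=
  ∑ v ∈ range (nv V b), QQ g B V v t * RR g X V v t

/-- all prime factor polynomials are small at `t` -/
def Sm (g : ℕ → ℂ) (B : Finset ℕ) (V b : ℕ) (α : ℝ) (t : ℝ) : Prop :=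
  ∀ v ∈ range (nv V b), ‖QQ g B V v t‖ ≤ PV V v ^ (1 - α)

/-- the Gaussian weight -/
noncomputable def gw (X : ℕ) (H t : ℝ) : ℝ := Real.exp (-(t * H / X) ^ 2)

/-- the primes `p` with `a < p ≤ b`, for real `a`, `b` -/
noncomputable def pab (a b : ℝ) : Finset ℕ :=
  (Finset.Iic ⌊b⌋₊).filter fun p : ℕ => p.Prime ∧ a < p

/-- tent function in the logarithmic scale around `[P, eP]` -/
noncomputable def tent (P u : ℝ) : ℝ := max 0 (1 - |Real.log (u / P) - 1 / 2|)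

end Pool.Agent.ELR
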