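import Pool.Agent.ELR.Defs

set_option autoImplicit false

/-! Asymptotic Elliott conjecture (MP_f3f922_nt), project ELR: exact targets, proofs in
Blueprint.lean.txt. Blocks E (decoupling), C (cubes), F (invariance), G (end). -/

namespace Pool.Agent.ELR

open Finset
open scoped BigOperators ComplexConjugate
open Pool.Agent.Ell (MB nit dist2)

/-! ### Block E -/

/-- SSA (strong subadditivity) -/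
def T_SSA : Prop := ∀ (Ω α β γ : Type) [Fintype Ω] (X1 : Ω → α) (X2 : Ω → β) (Y : Ω → γ),
  LL (fun w => (X1 w, Y w)) + LL (fun w => (X2 w, Y w)) ≤
    LL (fun w => ((X1 w, X2 w), Y w)) + LL Y

/-- MAX (entropy at most the logarithm of the size) -/
def T_MAX : Prop := ∀ (Ω α β : Type) [Fintype Ω] [Fintype α] (X : Ω → α) (Y : Ω → β),
  LL Y - LL (fun w => (X w, Y w)) ≤ (Fintype.card Ω : ℝ) * Real.log (Fintype.card α)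

/-- INFO (information inequality) -/
def T_INFO : Prop := ∀ (Ω α β : Type) [Fintype Ω] [Fintype β] (X : Ω → α) (Y : Ω → β)
  (B : α → β → Prop) (lam : ℝ),
  (∀ x, cnt (univ : Finset β) (B x) ≤ Real.exp (-lam) * (Fintype.card β : ℝ)) →
  lam * cnt (univ : Finset Ω) (fun w => B (X w) (Y w)) + LL X - LL (fun w => (X w, Y w)) ≤
    (Fintype.card Ω : ℝ) * (Real.log (Fintype.card β) + Real.log 2)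

/-- HOEF (lower tail of a sum of independent variables) -/
def T_HOEF : Prop := ∀ (ι : Type) [Fintype ι] [DecidableEq ι] (β : ι → Type)
  [∀ i, Fintype (β i)] (Z : ∀ i, β i → ℝ) (η : ℝ), (∀ i, Nonempty (β i)) →
  (∀ i y, 0 ≤ Z i y ∧ Z i y ≤ 2) → 0 < η → η ≤ 1 →
  cnt (univ : Finset (∀ i, β i)) (fun y => ∑ i, Z i (y i) ≤
      ∑ i, (∑ b, Z i b) / (Fintype.card (β i) : ℝ) - η * (Fintype.card ι : ℝ)) ≤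
    Real.exp (-(η ^ 2 * (Fintype.card ι : ℝ) / 16)) * ∏ i, (Fintype.card (β i) : ℝ)

/-- WIN (doubling the window) -/
def T_WIN : Prop := ∀ (N m : ℕ) [NeZero N] (g : ZMod N → Fin m) (H Q : ℕ), 1 ≤ Q → Q ∣ N →
  UU g (2 * H) Q ≤ 2 * UU g H Q

/-- ADD (adding the residues modulo the primes of a block) -/
def T_ADD : Prop := ∀ (N m M a L Q H : ℕ) [NeZero N] (V : Finset ℕ) (η : ℝ) (g : ZMod N → Fin m)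
  (r : Fin m → Fin m → Prop), 1 ≤ Q → M ∣ Q → Q * (∏ p ∈ V, p) ∣ N →
  (∀ p ∈ V, p.Prime ∧ ¬ p ∣ Q ∧ p * (L + 1) ≤ H) → 0 < η → η ≤ 1 →
  ∃ β : ℝ, 0 ≤ β ∧ β ≤ 1 ∧
    UU g H (Q * ∏ p ∈ V, p) ≤
      UU g H Q + N * Real.log 2 - η ^ 2 * (V.card : ℝ) / 16 * β * N ∧
    ∑ p ∈ V, cnt univ (FP M a L g r p) ≤
      ∑ p ∈ V, (p : ℝ) * cnt univ (fun n => p ∣ n.val ∧ FP M a L g r p n) +
        (η + β) * (V.card : ℝ) * N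

/-- DEC0 (the iteration) -/
def T_DEC0 : Prop := ∀ (m M a L z : ℕ) (S : Set ℕ) (η : ℝ), 1 ≤ m → 1 ≤ M → 0 < η →
  (∀ p ∈ S, p.Prime ∧ ¬ p ∣ M) → ¬ Summable (S.indicator fun p : ℕ => 1 / (p : ℝ)) →
  ∃ Z : ℕ, ∀ (N : ℕ) [NeZero N], M * (∏ p ∈ prS S z Z, p) ∣ N →
  ∀ (g : ZMod N → Fin m) (r : Fin m → Fin m → Prop),
  (∀ p ∈ prS S z Z, cnt univ (fun n => p ∣ n.val ∧ FP M a L g r p n) ≤ 4 / (p : ℝ) ^ 2 * N) →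
  ∃ p ∈ prS S z Z, cnt univ (FP M a L g r p) ≤ η * N

/-- DEC (decoupling for a sequence with values in the unit disc), from DEC0 -/
def T_DEC : Prop := ∀ (M a L z : ℕ) (S : Set ℕ) (ε η : ℝ), 1 ≤ M → 0 < ε → 0 < η →
  (∀ p ∈ S, p.Prime ∧ ¬ p ∣ M) → ¬ Summable (S.indicator fun p : ℕ => 1 / (p : ℝ)) →
  ∃ Z N0 : ℕ, ∀ (N : ℕ) (f : ℕ → ℂ) (ζ : ℂ), N0 ≤ N → (∀ n, ‖f n‖ ≤ 1) → ‖ζ‖ ≤ 1 →
  (∀ p ∈ prS S z Z, cnt (Icc 1 N) (fun n => p ∣ n ∧ n ≡ a [MOD M] ∧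
    ε < ‖f (n + p * L) - ζ * f n‖) ≤ 3 / (p : ℝ) ^ 2 * N) →
  ∃ p ∈ prS S z Z, cnt (Icc 1 N) (fun n => n ≡ a [MOD M] ∧
    2 * ε < ‖f (n + p * L) - ζ * f n‖) ≤ η * N

/-- DIR (Dirichlet's theorem with reciprocals) -/
def T_DIR : Prop := ∀ q a : ℕ, 1 ≤ q → Nat.Coprime a q →
  ¬ Summable ({p : ℕ | p.Prime ∧ p ≡ a [MOD q]}.indicator fun p : ℕ => 1 / (p : ℝ))

/-! ### Block C -/

/-- REC (the relations force a period) -/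
def T_REC : Prop := ∀ (K m : ℕ) (c : Fin K → ℕ), 1 ≤ m → (∀ i, 1 ≤ c i) →
  ∃ R : ℕ, 1 ≤ R ∧ ∀ ψ : ℕ → ZMod m,
    (∀ b, b + ∑ i, c i ≤ R → ∑ E : Finset (Fin K), (-1) ^ E.card * ψ (b + ∑ i ∈ E, c i) = 0) →
    ψ R = ψ 0

/-- CUB (elimination of the partners) -/
def T_CUB : Prop := ∀ (K m R : ℕ) (c : Fin K → ℕ) (j0 : Fin K) (ε : ℝ), 1 ≤ m → c j0 = 1 → 0 < ε →
  (∀ ψ : ℕ → ZMod m,
    (∀ b, b + ∑ i, c i ≤ R → ∑ E : Finset (Fin K), (-1) ^ E.card * ψ (b + ∑ i ∈ E, c i) = 0) →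
    ψ R = ψ 0) →
  ∃ τ : ℝ, 0 < τ ∧ τ < 1 ∧ ∀ (x x' : ℕ → ℂ) (y y' : ℕ → Finset (Fin K) → Fin K → ℂ),
  (∀ b, b ≤ R + ∑ i, c i → ‖x b‖ ≤ 1 ∧ ‖x' b‖ ≤ 1) →
  (∀ b ≤ R, ∀ E i, ‖y b E i‖ ≤ 1 ∧ ‖y' b E i‖ ≤ 1) →
  (∀ b ≤ R, ∀ E i, i ∉ E → y b (insert i E) i = y b E i ∧ y' b (insert i E) i = y' b E i) →
  (∀ b ≤ R, ∀ E, 1 - τ ≤ ‖x (b + ∑ i ∈ E, c i) * ∏ i, y b E i‖ ∧
    ‖x (b + ∑ i ∈ E, c i) * ∏ i, y b E i - x' (b + ∑ i ∈ E, c i) * ∏ i, y' b E i‖ ≤ τ) →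
  ((∀ b, Sp m (x b) ∧ Sp m (x' b)) ∨
    (∀ b ≤ R, ∀ E i, i ≠ j0 → Sp m (y b E i) ∧ Sp m (y' b E i))) →
  ‖x R * conj (x 0) - x' R * conj (x' 0)‖ ≤ ε

/-- PAR (choice of the parameters) -/
def T_PAR : Prop := ∀ (K : ℕ) (h : Fin (K + 1) → ℕ) (j0 : Fin K), Function.Injective h →
  ∃ c : Fin K → ℕ, (∀ i, 1 ≤ c i) ∧ c j0 = 1 ∧ ∀ R : ℕ, ∃ (D : ℕ) (σ : Fin K → ℤ)
    (l : ℕ → Finset (Fin K) → ℕ), Par K R D h c σ l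

/-- CLS (the residue class) -/
def T_CLS : Prop := ∀ (K R D : ℕ) (h : Fin (K + 1) → ℕ) (c : Fin K → ℕ) (σ : Fin K → ℤ)
  (l : ℕ → Finset (Fin K) → ℕ), Par K R D h c σ l → ∃ M a g : ℕ, Cls K R D h c l M a g

/-- APX (a large sum of elements of the disc is almost constant) -/
def T_APX : Prop := ∀ (N : ℕ) (a : ℕ → ℂ) (δ : ℝ), 1 ≤ N → (∀ n, ‖a n‖ ≤ 1) → 0 ≤ δ → δ < 1 →
  (1 - δ) * N ≤ ‖∑ n ∈ Icc 1 N, a n‖ →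
  ∃ c : ℂ, ‖c‖ = 1 ∧ ∀ ε : ℝ, 0 < ε →
    cnt (Icc 1 N) (fun n => ε ≤ ‖a n - c‖) ≤ 2 * δ * N / ε ^ 2

/-- STAR (the relation for the first function), from REC, CUB, PAR, CLS, APX -/
def T_STAR : Prop := ∀ (K m : ℕ) (h : Fin (K + 1) → ℕ) (j0 : Fin K), 1 ≤ m →
  Function.Injective h → ∃ M L a g : ℕ, 1 ≤ M ∧ 1 ≤ L ∧ 1 ≤ g ∧ g ∣ M ∧
  (∀ v : ℕ, v ≡ a + L [MOD M] → g ∣ v ∧ Nat.Coprime (v / g) M) ∧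
  ∀ ε θ : ℝ, 0 < ε → 0 < θ → ∃ (δ : ℝ) (N0 : ℕ), 0 < δ ∧ ∀ (N : ℕ) (f : Fin (K + 1) → ℕ → ℂ),
  N0 ≤ N → (∀ i, MB (f i)) →
  ((∀ n, Sp m (f 0 n)) ∨ (∀ i : Fin K, i ≠ j0 → ∀ n, Sp m (f i.succ n))) →
  (1 - δ) * N ≤ ‖∑ n ∈ Icc 1 N, ∏ j, f j (n + h j)‖ →
  cnt (Icc 1 N) (fun n => ‖f 0 n‖ < 1 - ε) ≤ θ * N ∧
  ∃ ζ : ℂ, ‖ζ‖ ≤ 1 ∧
    cnt (Icc 1 N) (fun u => u ≡ a [MOD M] ∧ ε < ‖f 0 (u + L) - ζ * f 0 u‖) ≤ θ * N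

/-! ### Block F -/

/-- INV (invariance under a fixed shift), from DEC, DIR -/
def T_INV : Prop := ∀ (M L a : ℕ) (ε η : ℝ), 1 ≤ M → 1 ≤ L → 0 < ε → 0 < η →
  ∃ (ε' θ : ℝ) (N0 : ℕ), 0 < ε' ∧ 0 < θ ∧ ∀ (N : ℕ) (f : ℕ → ℂ) (ζ : ℂ), N0 ≤ N → MB f →
  ‖ζ‖ ≤ 1 →
  cnt (Icc 1 N) (fun u => u ≡ a [MOD M] ∧ ε' < ‖f (u + L) - ζ * f u‖) ≤ θ * N →
  cnt (Icc 1 N) (fun v => v ≡ a + L [MOD M] ∧ ε < ‖f (v + 2 * M * L ^ 2) - f v‖) ≤ η * N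

/-! ### Block G -/

/-- FIN (non-pretentious functions are not invariant), from MR, GAUSS -/
def T_FIN : Prop := ∀ Q : ℕ, 1 ≤ Q → ∃ (η A : ℝ) (X0 : ℕ), 0 < η ∧ ∀ (X : ℕ) (f : ℕ → ℂ),
  X0 ≤ X → MB f → cnt (Icc 1 (4 * X)) (fun n => ‖f n‖ < 1 - η) ≤ η * X →
  (∀ (χ : DirichletCharacter ℂ Q) (t : ℝ), |t| ≤ 3 * X → A ≤ dist2 f χ t 1 X) →
  ∀ c : ℕ, Nat.Coprime c Q → η * X < cnt (Icc 1 (4 * X)) (fun n => n ≡ c [MOD Q] ∧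
    η < ‖f (n + Q) - f n‖)

/-- MAIN, from STAR, INV, FIN -/
def T_MAIN : Prop := ∀ (k m : ℕ) (h : Fin (k + 1) → ℕ), 1 ≤ k → 1 ≤ m → Function.Injective h →
  ∃ δ A₀ : ℝ, 0 < δ ∧ ∀ A : ℝ, 2 ≤ A → A₀ ≤ A → ∀ x : ℝ, A ≤ x →
  ∀ f : Fin (k + 1) → ArithmeticFunction ℂ,
    (∀ i, (f i).IsMultiplicative) → (∀ i n, ‖f i n‖ ≤ 1) →
    ((∀ n, ∃ r : ℝ, 0 ≤ r ∧ f 0 n ^ m = r) ∨
      ∃ j₀ : Fin (k + 1), ∀ j, j ≠ 0 → j ≠ j₀ → ∀ n, ∃ r : ℝ, 0 ≤ r ∧ f j n ^ m = r) →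
    (∀ q : ℕ, 1 ≤ q → (q : ℝ) ≤ A → ∀ χ : DirichletCharacter ℂ q, ∀ t : ℝ,
        |t| ≤ A * x ^ k →
        A ≤ Real.sqrt (∑ p ∈ (Finset.Iic ⌊x⌋₊).filter Nat.Prime,
          (1 - (f 0 p * (starRingEnd ℂ) (χ (p : ZMod q) *
            (p : ℂ) ^ ((t : ℂ) * Complex.I))).re) / (p : ℝ))) →
    ‖∑ n ∈ Finset.Icc 1 ⌊x⌋₊, ∏ i, f i (n + h i)‖ / x ≤ 1 - δ

end Pool.Agent.ELR
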