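import Pool.Agent.ELR.Defs

set_option autoImplicit false

/-! Asymptotic Elliott conjecture (MP_f3f922_nt), project ELR, block M (the theorem of Matomäki and
Radziwiłł, qualitative, in bounded intervals): exact targets, proofs in Blueprint.lean.txt. -/

namespace Pool.Agent.ELR

open Finset MeasureTheory
open scoped BigOperators ComplexConjugate
open Pool.Agent.Ell (MB nit dist2)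

/-- GAUSS -/
def T_GAUSS : Prop := ∀ (s : Finset ℕ) (a : ℕ → ℂ) (T : ℝ), (∀ n ∈ s, 1 ≤ n) → 0 < T →
  ∫ t : ℝ, ‖DP s a t‖ ^ 2 * Real.exp (-(t / T) ^ 2) =
    Real.sqrt Real.pi * T * ∑ m ∈ s, ∑ n ∈ s, (a m * conj (a n)).re *
      Real.exp (-(T * Real.log ((m : ℝ) / n)) ^ 2 / 4)

/-- MVT (mean value theorem), from GAUSS -/
def T_MVT : Prop := ∃ C : ℝ, 0 < C ∧ ∀ (s : Finset ℕ) (a : ℕ → ℂ) (T : ℝ) (N : ℕ), 1 ≤ N →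
  s ⊆ Icc 1 N → 0 < T →
  ∫ t : ℝ, ‖DP s a t‖ ^ 2 * Real.exp (-(t / T) ^ 2) ≤ C * (T + N) * ∑ n ∈ s, ‖a n‖ ^ 2

/-- TKD (the decomposition of Turán and Kubilius) -/
def T_TKD : Prop := ∃ C : ℝ, 0 < C ∧ ∀ (X b V : ℕ) (B : Finset ℕ) (g : ℕ → ℂ), 1 ≤ X → 1 ≤ V →
  (∀ p ∈ B, p.Prime ∧ p ≤ b) → 1 ≤ SB B → b ^ 2 * V ≤ X → MB g →
  ∃ e : ℕ → ℂ, (∀ t : ℝ, DP (Ioc X (4 * X)) g t =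
      ((1 / SB B : ℝ) : ℂ) * ZZ g B X V b t + DP (Icc 1 (12 * X)) e t) ∧
    ∑ n ∈ Icc 1 (12 * X), ‖e n‖ ^ 2 ≤ C * X * (1 / SB B + 1 / V)

/-- PMV (mean values of powers), from MVT -/
def T_PMV : Prop := ∃ C : ℝ, 0 < C ∧ ∀ (T P Y : ℝ) (l Y1 Y2 : ℕ) (s : Finset ℕ) (a c : ℕ → ℂ),
  1 ≤ T → 1 ≤ P → 0 < Y → (Y2 : ℝ) ≤ 4 * Y →
  (∀ p ∈ s, p.Prime ∧ P ≤ p ∧ (p : ℝ) ≤ Real.exp 1 * P) → (∀ n, ‖a n‖ ≤ 1 ∧ ‖c n‖ ≤ 1) →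
  ∫ t : ℝ, ‖DP s a t ^ l * DP (Ioc Y1 Y2) c t‖ ^ 2 * Real.exp (-(t / T) ^ 2) ≤
      C * (T + (Real.exp 1 * P) ^ l * (4 * Y)) *
        (4 * Y * P ^ l * (Real.exp 2 * (1 + l)) ^ l) ∧
  ∫ t : ℝ, ‖DP s a t ^ l‖ ^ 2 * Real.exp (-(t / T) ^ 2) ≤
      C * (T + (Real.exp 1 * P) ^ l) * (Real.exp 1 * P * l) ^ l

/-- ONE (first block), from MVT -/
def T_ONE : Prop := ∃ C : ℝ, 0 < C ∧ ∀ (X V b : ℕ) (B : Finset ℕ) (g : ℕ → ℂ) (α H a0 : ℝ),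
  1 ≤ X → 1 ≤ V → 1 ≤ b → (∀ n, ‖g n‖ ≤ 1) → 1 ≤ a0 → (∀ p ∈ B, p.Prime ∧ a0 < p ∧ p ≤ b) →
  0 < α → α ≤ 1 / 2 → (b : ℝ) ≤ H → H ≤ X →
  ∫ t in {t : ℝ | Sm g B V b α t}, ‖ZZ g B X V b t‖ ^ 2 * gw X H t ≤
    C * (X : ℝ) ^ 2 * (V : ℝ) ^ 2 * (Real.log b + 1) / α * a0 ^ (-(2 * α))

/-- JJ (later blocks), from PMV -/
def T_JJ : Prop := ∃ C : ℝ, 0 < C ∧ ∀ (X V b V' b' : ℕ) (B B' : Finset ℕ) (g : ℕ → ℂ)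
  (α α' H a0 a' : ℝ), 1 ≤ X → 1 ≤ V → 1 ≤ V' → 1 ≤ b → 1 ≤ b' → (∀ n, ‖g n‖ ≤ 1) →
  (∀ p ∈ B, p.Prime ∧ a0 < p ∧ p ≤ b) → (∀ p ∈ B', p.Prime ∧ a' < p ∧ p ≤ b') →
  Real.exp 2 ≤ a' → (b' : ℝ) ≤ a0 / Real.exp 1 → 0 < α' → α' < α → α ≤ 1 / 2 → 1 ≤ H → H ≤ X →
  Real.log (Real.exp 3 * (3 + Real.log b)) ≤ (α - α') / 4 * Real.log (a' / Real.exp 1) →
  ∫ t in {t : ℝ | ¬ Sm g B' V' b' α' t ∧ Sm g B V b α t}, ‖ZZ g B X V b t‖ ^ 2 * gw X H t ≤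
    C * (X : ℝ) ^ 2 * ((V : ℝ) ^ 2 * (Real.log b + 1) / (α - α') * V' * (Real.log b' + 1) *
      (b' : ℝ) ^ 5 * a0 ^ (-(α - α')))

/-- MEAS (measure of the exceptional set), from PMV -/
def T_MEAS : Prop := ∀ α : ℝ, 0 < α → α ≤ 1 / 2 → ∃ (C2 : ℝ) (X0 : ℕ), 0 < C2 ∧
  ∀ (X V b : ℕ) (B : Finset ℕ) (g : ℕ → ℂ) (a0 : ℝ), X0 ≤ X → 1 ≤ V → 1 ≤ b →
  (V : ℝ) ≤ Real.log X → (b : ℝ) ≤ (X : ℝ) ^ (1 / 2 : ℝ) → Real.log X ^ C2 ≤ a0 →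
  (∀ p ∈ B, p.Prime ∧ a0 < p ∧ p ≤ b) → (∀ n, ‖g n‖ ≤ 1) →
  volume {t : ℝ | |t| ≤ X ∧ ¬ Sm g B V b α t} ≤ ENNReal.ofReal ((X : ℝ) ^ (6 * α))

/-- EXPS (smooth sums), from the target `T_CORE` of Ell -/
def T_EXPS : Prop := ∃ C : ℝ, 0 < C ∧
  (∃ Φ : ℝ → ℂ, (∀ t, ‖Φ t‖ ≤ C / (1 + t ^ 2)) ∧ ∀ (P t : ℝ) (d : ℕ), 1 ≤ d → 1 ≤ P →
    ‖∑ m ∈ Icc 1 ⌊9 * P⌋₊, ((if d ∣ m then tent P m else 0 : ℝ) : ℂ) * nit (-t) m -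
      (P : ℂ) ^ (1 - (t : ℂ) * Complex.I) * Φ t / d‖ ≤ C * (1 + |t|)) ∧
  ∀ C1 : ℝ, 1 ≤ C1 → ∃ κ K : ℝ, 0 < κ ∧ κ ≤ 1 ∧ 0 < K ∧ ∀ (P t : ℝ) (d : ℕ), 1 ≤ d →
    (d : ℝ) ≤ P ^ (1 / 8 : ℝ) → 1 ≤ P → P ^ (1 / 4 : ℝ) ≤ |t| → |t| ≤ P ^ C1 →
    ‖∑ m ∈ Icc 1 ⌊9 * P⌋₊, ((if d ∣ m then tent P m else 0 : ℝ) : ℂ) * nit (-t) m‖ ≤
      K * P ^ (1 - κ)

/-- SELB (Selberg's weights) -/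
def T_SELB : Prop := ∀ z : ℝ, 2 ≤ z → ∃ lam : ℕ → ℝ, lam 1 = 1 ∧ (∀ d, |lam d| ≤ 1) ∧
  |∑ d ∈ Icc 1 ⌊z⌋₊, ∑ d' ∈ Icc 1 ⌊z⌋₊, lam d * lam d' / (Nat.lcm d d' : ℝ)| ≤ 1 / Real.log z

/-- KER (the kernel), from EXPS, SELB -/
def T_KER : Prop := ∀ C1 : ℝ, 1 ≤ C1 → ∃ κ C P0 : ℝ, 0 < κ ∧ κ ≤ 1 ∧ 0 < C ∧ 1 ≤ P0 ∧
  ∀ P : ℝ, P0 ≤ P → ∃ W : ℕ → ℝ, (∀ n, 0 ≤ W n) ∧
  (∀ p : ℕ, p.Prime → P ≤ p → (p : ℝ) ≤ Real.exp 1 * P → 1 / 2 ≤ W p) ∧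
  ∀ t : ℝ, |t| ≤ P ^ C1 → ‖DP (Icc 1 ⌊9 * P⌋₊) (fun n => (W n : ℂ)) t‖ ≤
    C * P / (Real.log P * (1 + t ^ 2)) + C * P ^ (1 - κ)

/-- DUAL (duality) -/
def T_DUAL : Prop := ∀ (s : Finset ℕ) (W : ℕ → ℝ) (a : ℕ → ℂ) (U : Set ℝ) (G : ℝ),
  (∀ n ∈ s, 1 ≤ n ∧ 0 ≤ W n) → (∀ n ∈ s, W n = 0 → a n = 0) → MeasurableSet U →
  Bornology.IsBounded U → 0 ≤ G →
  (∀ t ∈ U, ∫ u in U, ‖DP s (fun n => (W n : ℂ)) (t - u)‖ ≤ G) →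
  ∫ t in U, ‖DP s a t‖ ^ 2 ≤ (∑ n ∈ s, ‖a n‖ ^ 2 / W n) * G

/-- LV (large values), from KER, DUAL -/
def T_LV : Prop := ∀ c1 : ℝ, 0 < c1 → c1 < 1 / 2 → ∃ (κ0 C0 : ℝ) (X0 : ℕ), 0 < κ0 ∧ 0 < C0 ∧
  ∀ (X : ℕ) (P : ℝ) (s : Finset ℕ) (a : ℕ → ℂ) (U : Set ℝ), X0 ≤ X → (X : ℝ) ^ c1 ≤ P →
  P ≤ (X : ℝ) ^ (1 / 2 : ℝ) → (∀ n, ‖a n‖ ≤ 1) →
  (∀ p ∈ s, p.Prime ∧ P ≤ p ∧ (p : ℝ) ≤ Real.exp 1 * P) →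
  MeasurableSet U → (∀ t ∈ U, |t| ≤ X) → volume U ≤ ENNReal.ofReal ((X : ℝ) ^ κ0) →
  ∫ t in U, ‖DP s a t‖ ^ 2 ≤ C0 * (P / Real.log X) ^ 2

/-- PTW (pointwise bounds), from the targets `T_HAL`, `T_MERT` of Ell -/
def T_PTW : Prop := ∀ c ε : ℝ, 0 < c → c ≤ 1 → 0 < ε → ∃ (A : ℝ) (X0 : ℕ), ∀ (X : ℕ) (g : ℕ → ℂ),
  X0 ≤ X → MB g → (∀ t : ℝ, |t| ≤ 3 * X → A ≤ dist2 g (1 : DirichletCharacter ℂ 1) t 1 X) →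
  ∀ (y : ℕ) (t : ℝ), (X : ℝ) ^ c ≤ y → y ≤ X → |t| ≤ X → ‖DP (Icc 1 y) g t‖ ≤ ε * y

/-- the left ends of the blocks -/
noncomputable def aj (lam : ℝ) (j : ℕ) : ℝ := Real.exp (Real.exp (lam * 4 ^ j))

/-- the right ends of the blocks -/
noncomputable def bj (lam : ℝ) (j : ℕ) : ℝ := Real.exp (Real.exp (lam * (4 ^ j + 2 ^ j)))

/-- the numbers of subdivisions -/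
noncomputable def Vj (lam : ℝ) (j : ℕ) : ℕ := ⌈lam⌉₊ * 2 ^ j

/-- the exponents -/
noncomputable def alj (α : ℝ) (j : ℕ) : ℝ := α * (1 - 1 / 2 ^ j)

/-- SEQ (numerics) -/
def T_SEQ : Prop := ∀ α ε : ℝ, 0 < α → α ≤ 1 / 2 → 0 < ε → ∃ lam0 : ℝ, 1 ≤ lam0 ∧
  ∀ lam : ℝ, lam0 ≤ lam →
  Real.exp 2 ≤ aj lam 1 ∧
  (Vj lam 1 : ℝ) ^ 2 * (Real.log (bj lam 1) + 1) / alj α 1 * (aj lam 1) ^ (-(2 * alj α 1)) ≤ ε ∧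
  ∀ j : ℕ, 1 ≤ j → bj lam j ≤ aj lam (j + 1) / Real.exp 1 ∧
    Real.log (Real.exp 3 * (3 + Real.log (bj lam (j + 1)))) ≤
      (alj α (j + 1) - alj α j) / 4 * Real.log (aj lam j / Real.exp 1) ∧
    (Vj lam (j + 1) : ℝ) ^ 2 * (Real.log (bj lam (j + 1)) + 1) / (alj α (j + 1) - alj α j) *
      Vj lam j * (Real.log (bj lam j) + 1) * (bj lam j) ^ (5 : ℕ) *
      (aj lam (j + 1)) ^ (-(alj α (j + 1) - alj α j)) ≤ ε / 2 ^ j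

/-- JX (the last block) -/
def T_JX : Prop := ∀ lam C2 : ℝ, 1 ≤ lam → 0 < C2 → ∃ X0 : ℕ, ∀ X : ℕ, X0 ≤ X →
  ∃ J : ℕ, 1 ≤ J ∧ Real.log X ^ C2 ≤ aj lam J ∧ bj lam J ≤ Real.exp (Real.sqrt (Real.log X)) ∧
    (Vj lam J : ℝ) ≤ Real.log X ∧ Real.exp (Real.sqrt (Real.log X)) ^ 2 * Real.log X ≤ X

/-- SBJ (Mertens for the blocks) -/
def T_SBJ : Prop := ∃ C : ℝ, 0 < C ∧ ∀ a b : ℝ, 2 ≤ a → a ≤ b →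
  |SB (pab a b) - (Real.log (Real.log b) - Real.log (Real.log a))| ≤ C

/-- MR (the theorem) -/
def T_MR : Prop := ∀ ε : ℝ, 0 < ε → ∃ H0 : ℝ, 1 ≤ H0 ∧ ∀ H : ℝ, H0 ≤ H → ∃ (A : ℝ) (X0 : ℕ),
  ∀ (X : ℕ) (g : ℕ → ℂ), X0 ≤ X → MB g →
  (∀ t : ℝ, |t| ≤ 3 * X → A ≤ dist2 g (1 : DirichletCharacter ℂ 1) t 1 X) →
  QF X H g ≤ ε * H * X

end Pool.Agent.ELR
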